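import Pool.Agent.Work.MP_8c9686_lc.Main

/-!
# Eager variable elimination in `T` for unifiers with an acyclic proof
-/

namespace Pool.Agent.Work.MP_8c9686_lc.AcyclicProofsT

open Pool.Agent.Work.MP_8c9686_lc

/-- If `θ` is an `E`-unifier of `S` whose proof uses a finite set `Q` of instances of equations
of `E` with nonvariable sides modulo which no term is congruent to a proper subterm of itself
(in particular, if `E` is a simple theory and `θ` is any `E`-unifier), then some eager
`T`-derivation from `S` reaches a solved `S'` with `σ_{S'} ≤_E θ [Var(S)]`. -/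
theorem result (F : Type) (ar : F → ℕ) (E : Set (Term F ar × Term F ar)) (S : Sys F ar)
    (θ : ℕ → Term F ar)
    (h : (Simple E ∧ Unifies E θ S) ∨ ∃ Q, AcyclicInstances E Q ∧
      ∀ s t, s(s, t) ∈ S → Cong Q (s.subst θ) (t.subst θ)) :
    Reaches E (StepT E) S θ := by
  rcases h with ⟨hE, hθ⟩ | ⟨Q, hQ, hθ⟩
  · obtain ⟨Q, hQ, hθ⟩ := exists_acyclic hE hθ
    exact reaches_of_acyclic (rulesT E) hQ hθ
  · exact reaches_of_acyclic (rulesT E) hQ hθ

end Pool.Agent.Work.MP_8c9686_lc.AcyclicProofsT
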