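import Pool.Agent.Work.MP_8c9686_lc.Defs

/-! Basic lemmas on terms, substitutions and congruences. -/

namespace Pool.Agent.Work.MP_8c9686_lc

variable {F : Type*} {ar : F → ℕ}

namespace Term

@[simp] theorem subst_var (σ : ℕ → Term F ar) (x : ℕ) : (var x : Term F ar).subst σ = σ x := rfl

@[simp] theorem subst_app (σ : ℕ → Term F ar) (f : F) (ts : Fin (ar f) → Term F ar) :
    (app f ts).subst σ = app f fun i => (ts i).subst σ := rfl

@[simp] theorem mem_vars_var (x y : ℕ) : x ∈ (var y : Term F ar).vars ↔ x = y := by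
  simp [vars]

@[simp] theorem mem_vars_app (x : ℕ) (f : F) (ts : Fin (ar f) → Term F ar) :
    x ∈ (app f ts).vars ↔ ∃ i, x ∈ (ts i).vars := by
  simp [vars]

theorem subst_congr {σ τ : ℕ → Term F ar} {t : Term F ar} (h : ∀ x ∈ t.vars, σ x = τ x) :
    t.subst σ = t.subst τ := by
  induction t with
  | var x => exact h x (by simp)
  | app f ts ih =>
    simp only [subst_app, app.injEq, heq_eq_eq, true_and]
    funext i
    exact ih i fun x hx => h x (by simpa using ⟨i, hx⟩)

theorem subst_subst (σ τ : ℕ → Term F ar) (t : Term F ar) :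
    (t.subst σ).subst τ = t.subst fun x => (σ x).subst τ := by
  induction t with
  | var x => rfl
  | app f ts ih => simp only [subst_app]; congr 1; funext i; exact ih i

theorem subst_id (t : Term F ar) : t.subst (fun x => var x) = t := by
  induction t with
  | var x => rfl
  | app f ts ih => simp only [subst_app]; congr 1; funext i; exact ih i

theorem mem_vars_subst {σ : ℕ → Term F ar} {t : Term F ar} {x : ℕ} :
    x ∈ (t.subst σ).vars ↔ ∃ y ∈ t.vars, x ∈ (σ y).vars := by
  induction t with
  | var y => simp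
  | app f ts ih =>
    simp only [subst_app, mem_vars_app]
    constructor
    · rintro ⟨i, hi⟩
      obtain ⟨y, hy, hx⟩ := (ih i).1 hi
      exact ⟨y, ⟨i, hy⟩, hx⟩
    · rintro ⟨y, ⟨i, hy⟩, hx⟩
      exact ⟨i, (ih i).2 ⟨y, hy, hx⟩⟩

theorem occ_eq_zero {x : ℕ} {t : Term F ar} : t.occ x = 0 ↔ x ∉ t.vars := by
  induction t with
  | var y =>
    simp only [occ, mem_vars_var]
    by_cases h : y = x
    · simp [h]
    · simp [h, Ne.symm h]
  | app f ts ih =>
    simp only [occ, mem_vars_app, Finset.sum_eq_zero_iff, Finset.mem_univ, true_implies, not_exists]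
    exact forall_congr' fun i => ih i

/-- substitution of a term without `y` for a variable `x ≠ y` does not change occurrences of `y` -/
theorem occ_subst_single {x y : ℕ} {t : Term F ar} (hxy : y ≠ x) (hy : y ∉ t.vars)
    (u : Term F ar) : (u.subst (single x t)).occ y = u.occ y := by
  induction u with
  | var z =>
    simp only [subst_var, single]
    by_cases h : z = x
    · subst h
      simp only [if_true, occ, occ_eq_zero.2 hy]
      rw [if_neg (Ne.symm hxy)]
    · simp [h]
  | app f ts ih =>
    simp only [subst_app, occ]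
    exact Finset.sum_congr rfl fun i _ => ih i

theorem occ_subst_single_self {x : ℕ} {t : Term F ar} (hx : x ∉ t.vars) (u : Term F ar) :
    (u.subst (single x t)).occ x = 0 := by
  rw [occ_eq_zero, mem_vars_subst]
  rintro ⟨y, _, hy⟩
  simp only [single] at hy
  split_ifs at hy with h
  · exact hx hy
  · simp only [mem_vars_var] at hy; exact h hy.symm

theorem subst_single_eq {x : ℕ} {t u : Term F ar} (hx : x ∉ u.vars) :
    u.subst (single x t) = u := by
  conv_rhs => rw [← subst_id u]
  apply subst_congr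
  intro y hy
  simp only [single]
  rw [if_neg]
  rintro rfl
  exact hx hy

theorem nonVar_subst {t : Term F ar} (h : t.NonVar) (σ : ℕ → Term F ar) : (t.subst σ).NonVar := by
  obtain ⟨f, ts, rfl⟩ := h
  exact ⟨f, _, rfl⟩

theorem var_or_nonVar (t : Term F ar) : (∃ x, t = var x) ∨ t.NonVar := by
  cases t with
  | var x => exact Or.inl ⟨x, rfl⟩
  | app f ts => exact Or.inr ⟨f, ts, rfl⟩

end Term

open Term

theorem Cong.subst_congr {Q : Set (Term F ar × Term F ar)} {σ τ : ℕ → Term F ar}
    {t : Term F ar} (h : ∀ x ∈ t.vars, Cong Q (σ x) (τ x)) : Cong Q (t.subst σ) (t.subst τ) := by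
  induction t with
  | var x => exact h x (by simp)
  | app f ts ih =>
    simp only [subst_app]
    exact Cong.congr f fun i => ih i fun x hx => h x (by simpa using ⟨i, hx⟩)

theorem Cong.mono {Q Q' : Set (Term F ar × Term F ar)} (h : Q ⊆ Q') {s t : Term F ar}
    (hst : Cong Q s t) : Cong Q' s t := by
  induction hst with
  | ax h' => exact Cong.ax (h h')
  | refl t => exact Cong.refl t
  | symm _ ih => exact ih.symm
  | trans _ _ ih1 ih2 => exact ih1.trans ih2
  | congr f _ ih => exact Cong.congr f ih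

/-- Every proof uses only finitely many instances. -/
theorem Cong.exists_finite {Q : Set (Term F ar × Term F ar)} {s t : Term F ar}
    (h : Cong Q s t) : ∃ Q' : Set (Term F ar × Term F ar), Q'.Finite ∧ Q' ⊆ Q ∧ Cong Q' s t := by
  induction h with
  | @ax l r h => exact ⟨{(l, r)}, Set.finite_singleton _, by simpa using h, Cong.ax (by simp)⟩
  | refl t => exact ⟨∅, Set.finite_empty, Set.empty_subset _, Cong.refl t⟩
  | symm _ ih =>
    obtain ⟨Q', h1, h2, h3⟩ := ih
    exact ⟨Q', h1, h2, h3.symm⟩
  | trans _ _ ih1 ih2 =>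
    obtain ⟨Q1, h1, h2, h3⟩ := ih1
    obtain ⟨Q2, h4, h5, h6⟩ := ih2
    exact ⟨Q1 ∪ Q2, h1.union h4, Set.union_subset h2 h5,
      (h3.mono Set.subset_union_left).trans (h6.mono Set.subset_union_right)⟩
  | congr f _ ih =>
    choose Q' h1 h2 h3 using ih
    exact ⟨⋃ i, Q' i, Set.finite_iUnion h1, Set.iUnion_subset h2,
      Cong.congr f fun i => (h3 i).mono (Set.subset_iUnion _ i)⟩

theorem mem_eqVars {x : ℕ} {s t : Term F ar} : x ∈ eqVars s(s, t) ↔ x ∈ s.vars ∨ x ∈ t.vars := by
  simp [eqVars]

theorem mem_sysVars {x : ℕ} {S : Sys F ar} : x ∈ sysVars S ↔ ∃ e ∈ S, x ∈ eqVars e := by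
  unfold sysVars
  induction S using Multiset.induction_on with
  | empty => simp
  | cons e S ih =>
    rw [Multiset.map_cons, Multiset.sup_cons]
    simp only [Finset.sup_eq_union, Finset.mem_union, ih, Multiset.mem_cons, exists_eq_or_imp]

theorem eqOcc_eq_zero {x : ℕ} {e : Sym2 (Term F ar)} : eqOcc x e = 0 ↔ x ∉ eqVars e := by
  induction e with
  | _ s t =>
    rw [mem_eqVars]
    simp only [eqOcc, Sym2.lift_mk, Nat.add_eq_zero_iff, occ_eq_zero]
    tauto

theorem sysOcc_cons (x : ℕ) (e : Sym2 (Term F ar)) (S : Sys F ar) :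
    sysOcc x (e ::ₘ S) = eqOcc x e + sysOcc x S := by
  simp [sysOcc]

theorem sysOcc_add (x : ℕ) (S T : Sys F ar) : sysOcc x (S + T) = sysOcc x S + sysOcc x T := by
  simp [sysOcc]

theorem sysOcc_eq_zero {x : ℕ} {S : Sys F ar} : sysOcc x S = 0 ↔ x ∉ sysVars S := by
  rw [mem_sysVars]
  simp only [sysOcc, Multiset.sum_eq_zero_iff, Multiset.mem_map, forall_exists_index, and_imp]
  push Not
  constructor
  · intro h e he
    exact eqOcc_eq_zero.1 (h _ e he rfl)
  · rintro h _ e he rfl
    exact eqOcc_eq_zero.2 (h e he)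

theorem sysSubst_cons (σ : ℕ → Term F ar) (s t : Term F ar) (S : Sys F ar) :
    sysSubst σ (s(s, t) ::ₘ S) = s(s.subst σ, t.subst σ) ::ₘ sysSubst σ S := by
  simp [sysSubst]

theorem sysSubst_add (σ : ℕ → Term F ar) (S T : Sys F ar) :
    sysSubst σ (S + T) = sysSubst σ S + sysSubst σ T := by
  simp [sysSubst]

theorem sysSubst_sysSubst (σ τ : ℕ → Term F ar) (S : Sys F ar) :
    sysSubst τ (sysSubst σ S) = sysSubst (fun x => (σ x).subst τ) S := by
  simp only [sysSubst, Multiset.map_map]
  apply Multiset.map_congr rfl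
  intro e _
  induction e with
  | _ s t => simp [subst_subst]

theorem sysSubst_id (S : Sys F ar) : sysSubst (fun x => var x) S = S := by
  unfold sysSubst
  conv_rhs => rw [← Multiset.map_id S]
  apply Multiset.map_congr rfl
  intro e _
  induction e with
  | _ s t => simp [subst_id]

theorem eqOcc_map_single {x y : ℕ} {t : Term F ar} (hxy : y ≠ x) (hy : y ∉ t.vars)
    (e : Sym2 (Term F ar)) : eqOcc y (Sym2.map (Term.subst (single x t)) e) = eqOcc y e := by
  induction e with
  | _ u v => simp [eqOcc, occ_subst_single hxy hy]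

theorem eqOcc_map_single_self {x : ℕ} {t : Term F ar} (hx : x ∉ t.vars)
    (e : Sym2 (Term F ar)) : eqOcc x (Sym2.map (Term.subst (single x t)) e) = 0 := by
  induction e with
  | _ u v => simp [eqOcc, occ_subst_single_self hx]

theorem sysOcc_single {x y : ℕ} {t : Term F ar} (hxy : y ≠ x) (hy : y ∉ t.vars)
    (S : Sys F ar) : sysOcc y (sysSubst (single x t) S) = sysOcc y S := by
  simp only [sysOcc, sysSubst, Multiset.map_map]
  congr 1
  exact Multiset.map_congr rfl fun e _ => eqOcc_map_single hxy hy e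

theorem sysOcc_single_self {x : ℕ} {t : Term F ar} (hx : x ∉ t.vars)
    (S : Sys F ar) : sysOcc x (sysSubst (single x t) S) = 0 := by
  simp only [sysOcc, sysSubst, Multiset.map_map, Multiset.sum_eq_zero_iff, Multiset.mem_map]
  rintro _ ⟨e, _, rfl⟩
  exact eqOcc_map_single_self hx e

end Pool.Agent.Work.MP_8c9686_lc
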