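import Mathlib

/-!
# Transformation systems for general E-unification

Terms, equational theories, systems of equations and the rules of the two systems `BT` and `T`
of the problem, in their eager form.
-/

namespace Pool.Agent.Work.MP_8c9686_lc

/-- First-order terms over the signature `F` with arities `ar`; the variables are the natural
numbers. -/
inductive Term (F : Type*) (ar : F → ℕ) : Type _
  | var (x : ℕ) : Term F ar
  | app (f : F) (ts : Fin (ar f) → Term F ar) : Term F ar

variable {F : Type*} {ar : F → ℕ}

namespace Term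

/-- Application of a substitution to a term. -/
def subst (σ : ℕ → Term F ar) : Term F ar → Term F ar
  | var x => σ x
  | app f ts => app f fun i => (ts i).subst σ

/-- The number of occurrences of the variable `x` in a term. -/
def occ (x : ℕ) : Term F ar → ℕ
  | var y => if y = x then 1 else 0
  | app _ ts => ∑ i, (ts i).occ x

/-- The set of variables of a term. -/
def vars : Term F ar → Finset ℕ
  | var x => {x}
  | app _ ts => Finset.univ.biUnion fun i => (ts i).vars

/-- `t` is not a variable. -/
def NonVar (t : Term F ar) : Prop := ∃ f ts, t = app f ts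

/-- `DirectSub s t`: `s` is one of the arguments of `t`. -/
inductive DirectSub : Term F ar → Term F ar → Prop
  | mk (f : F) (ts : Fin (ar f) → Term F ar) (i : Fin (ar f)) : DirectSub (ts i) (app f ts)

/-- `ProperSub s t`: `s` is a proper subterm of `t`. -/
def ProperSub : Term F ar → Term F ar → Prop := Relation.TransGen DirectSub

/-- `ReplAt a b u u'`: for some position `β` of `u` one has `u/β = a` and `u' = u[β ← b]`. -/
inductive ReplAt (a b : Term F ar) : Term F ar → Term F ar → Prop
  | here : ReplAt a b a b
  | arg (f : F) (ts : Fin (ar f) → Term F ar) (i : Fin (ar f)) (t' : Term F ar) :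
      ReplAt a b (ts i) t' → ReplAt a b (app f ts) (app f (Function.update ts i t'))

end Term

open Term

/-- The congruence generated by a set of pairs of terms (without closure under substitution). -/
inductive Cong (Q : Set (Term F ar × Term F ar)) : Term F ar → Term F ar → Prop
  | ax {l r : Term F ar} : (l, r) ∈ Q → Cong Q l r
  | refl (t : Term F ar) : Cong Q t t
  | symm {s t : Term F ar} : Cong Q s t → Cong Q t s
  | trans {s t u : Term F ar} : Cong Q s t → Cong Q t u → Cong Q s u
  | congr (f : F) {a b : Fin (ar f) → Term F ar} : (∀ i, Cong Q (a i) (b i)) →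
      Cong Q (app f a) (app f b)

/-- All substitution instances of the equations of `E`. -/
def inst (E : Set (Term F ar × Term F ar)) : Set (Term F ar × Term F ar) :=
  {p | ∃ l r ρ, (l, r) ∈ E ∧ p = (l.subst ρ, r.subst ρ)}

/-- Equality modulo `E` (the relation `↔*_E`). -/
def EqE (E : Set (Term F ar × Term F ar)) : Term F ar → Term F ar → Prop := Cong (inst E)

/-- An equation `s ≈ t`, read symmetrically, is an unordered pair; a system is a finite multiset
of equations. -/
abbrev Sys (F : Type*) (ar : F → ℕ) := Multiset (Sym2 (Term F ar))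

/-- The variables of an equation. -/
def eqVars : Sym2 (Term F ar) → Finset ℕ :=
  Sym2.lift ⟨fun s t => s.vars ∪ t.vars, fun s t => Finset.union_comm s.vars t.vars⟩

/-- The number of occurrences of `x` in an equation. -/
def eqOcc (x : ℕ) : Sym2 (Term F ar) → ℕ :=
  Sym2.lift ⟨fun s t => s.occ x + t.occ x, fun s t => Nat.add_comm (s.occ x) (t.occ x)⟩

/-- The variables of a system. -/
noncomputable def sysVars (S : Sys F ar) : Finset ℕ := (S.map eqVars).sup

/-- The number of occurrences of `x` in a system. -/
def sysOcc (x : ℕ) (S : Sys F ar) : ℕ := (S.map (eqOcc x)).sum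

/-- Application of a substitution to a system. -/
def sysSubst (σ : ℕ → Term F ar) (S : Sys F ar) : Sys F ar := S.map (Sym2.map (Term.subst σ))

/-- The substitution `[t/x]`. -/
def single (x : ℕ) (t : Term F ar) : ℕ → Term F ar := fun y => if y = x then t else var y

/-- `l ≐ r` is a variant, without variables from `V`, of an equation in `E ∪ E⁻¹`. -/
def FreshVariant (E : Set (Term F ar × Term F ar)) (V : Finset ℕ) (l r : Term F ar) : Prop :=
  ∃ l₀ r₀, ((l₀, r₀) ∈ E ∨ (r₀, l₀) ∈ E) ∧ ∃ ν : ℕ → ℕ, Function.Injective ν ∧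
    l = l₀.subst (fun x => var (ν x)) ∧ r = r₀.subst (fun x => var (ν x)) ∧
    Disjoint l.vars V ∧ Disjoint r.vars V

/-- An equation `x ≈ t` with `x` not in `t`: in an eager derivation it is never transformed by
Root Rewriting, Root Imitation or Lazy Paramodulation. -/
def Frozen (e : Sym2 (Term F ar)) : Prop := ∃ x t, e = s(var x, t) ∧ x ∉ t.vars

/-- The rules of the system `BT`, restricted to eager derivations. A configuration consists of
the set of all variables used so far and of the current system; fresh variables are taken outside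
that set. -/
inductive StepBT (E : Set (Term F ar × Term F ar)) :
    Finset ℕ × Sys F ar → Finset ℕ × Sys F ar → Prop
  /-- Trivial -/
  | triv (V : Finset ℕ) (t : Term F ar) (S : Sys F ar) : StepBT E (V, s(t, t) ::ₘ S) (V, S)
  /-- Decomposition -/
  | dec (V : Finset ℕ) (f : F) (a b : Fin (ar f) → Term F ar) (S : Sys F ar) :
      StepBT E (V, s(app f a, app f b) ::ₘ S)
        (V, (List.ofFn fun i => s(a i, b i) : Sys F ar) + S)
  /-- Variable Elimination -/
  | ve (V : Finset ℕ) (x : ℕ) (t : Term F ar) (S : Sys F ar) : x ∉ t.vars → x ∈ sysVars S →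
      StepBT E (V, s(var x, t) ::ₘ S) (V, s(var x, t) ::ₘ sysSubst (single x t) S)
  /-- Root Rewriting -/
  | rr (V : Finset ℕ) (u v l r : Term F ar) (S : Sys F ar) : FreshVariant E V l r →
      ¬ Frozen s(u, v) →
      StepBT E (V, s(u, v) ::ₘ S) (V ∪ l.vars ∪ r.vars, s(u, l) ::ₘ s(r, v) ::ₘ S)
  /-- Root Imitation -/
  | ri (V : Finset ℕ) (x : ℕ) (t : Term F ar) (f : F) (y : Fin (ar f) → ℕ) (S : Sys F ar) :
      Function.Injective y → (∀ i, y i ∉ V) → ((∃ ts, t = app f ts) ∨ ∃ z, t = var z) →
      ¬ Frozen s(var x, t) →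
      StepBT E (V, s(var x, t) ::ₘ S) (V ∪ Finset.univ.image y,
        s(var x, app f fun i => var (y i)) ::ₘ s(app f fun i => var (y i), t) ::ₘ S)

/-- The rules of the system `T`, restricted to eager derivations. A configuration consists of
the set of all variables used so far and of the current system. -/
inductive StepT (E : Set (Term F ar × Term F ar)) :
    Finset ℕ × Sys F ar → Finset ℕ × Sys F ar → Prop
  /-- Trivial -/
  | triv (V : Finset ℕ) (t : Term F ar) (S : Sys F ar) : StepT E (V, s(t, t) ::ₘ S) (V, S)
  /-- Decomposition -/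
  | dec (V : Finset ℕ) (f : F) (a b : Fin (ar f) → Term F ar) (S : Sys F ar) :
      StepT E (V, s(app f a, app f b) ::ₘ S)
        (V, (List.ofFn fun i => s(a i, b i) : Sys F ar) + S)
  /-- Variable Elimination -/
  | ve (V : Finset ℕ) (x : ℕ) (t : Term F ar) (S : Sys F ar) : x ∉ t.vars → x ∈ sysVars S →
      StepT E (V, s(var x, t) ::ₘ S) (V, s(var x, t) ::ₘ sysSubst (single x t) S)
  /-- Lazy Paramodulation with a variable left-hand side `l` -/
  | lpv (V : Finset ℕ) (u v a u' r : Term F ar) (x : ℕ) (S : Sys F ar) :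
      FreshVariant E V (var x) r → ¬ Frozen s(u, v) → a.NonVar → ReplAt a r u u' →
      StepT E (V, s(u, v) ::ₘ S)
        (V ∪ {x} ∪ r.vars, s(a, var x) ::ₘ s(u', v) ::ₘ S)
  /-- Lazy Paramodulation with a left-hand side `l` that is not a variable -/
  | lpd (V : Finset ℕ) (u v u' r : Term F ar) (f : F) (a b : Fin (ar f) → Term F ar)
      (S : Sys F ar) :
      FreshVariant E V (app f b) r → ¬ Frozen s(u, v) → ReplAt (app f a) r u u' →
      StepT E (V, s(u, v) ::ₘ S)
        (V ∪ (app f b).vars ∪ r.vars,
          (List.ofFn fun i => s(a i, b i) : Sys F ar) + s(u', v) ::ₘ S)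

/-- `θ` is an `E`-unifier of `S`. -/
def Unifies (E : Set (Term F ar × Term F ar)) (θ : ℕ → Term F ar) (S : Sys F ar) : Prop :=
  ∀ s t, s(s, t) ∈ S → EqE E (s.subst θ) (t.subst θ)

/-- The system `S` is solved, `S = {x₁ ≈ t₁, ..., xₙ ≈ tₙ}` with each `xᵢ` occurring exactly once
in `S`, and `σ = [t₁/x₁, ..., tₙ/xₙ]` is its substitution `σ_S`. -/
def Solved (S : Sys F ar) (σ : ℕ → Term F ar) : Prop :=
  ∃ L : List (ℕ × Term F ar), S = (L.map fun p => s(var p.1, p.2) : Sys F ar) ∧
    (∀ p ∈ L, sysOcc p.1 S = 1 ∧ σ p.1 = p.2) ∧ ∀ x, (∀ p ∈ L, p.1 ≠ x) → σ x = var x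

/-- `σ ≤_E θ [W]`. -/
def LeE (E : Set (Term F ar × Term F ar)) (W : Finset ℕ) (σ θ : ℕ → Term F ar) : Prop :=
  ∃ η : ℕ → Term F ar, ∀ x ∈ W, EqE E ((σ x).subst η) (θ x)

/-- Some derivation from `S` with steps in `Step` reaches a solved system whose substitution is,
on the variables of `S`, more general modulo `E` than `θ`. -/
def Reaches (E : Set (Term F ar × Term F ar))
    (Step : Finset ℕ × Sys F ar → Finset ℕ × Sys F ar → Prop) (S : Sys F ar)
    (θ : ℕ → Term F ar) : Prop :=
  ∃ V' S' σ, Relation.ReflTransGen Step (sysVars S, S) (V', S') ∧ Solved S' σ ∧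
    LeE E (sysVars S) σ θ

/-- `E` is a simple theory: it is consistent and no term is equal modulo `E` to one of its proper
subterms. -/
def Simple (E : Set (Term F ar × Term F ar)) : Prop :=
  ¬ EqE E (var 0) (var 1) ∧ ∀ s t : Term F ar, ProperSub s t → ¬ EqE E s t

/-- A finite set `Q` of instances of equations of `E` with nonvariable sides, such that no term is
congruent modulo `Q` to one of its proper subterms (an acyclic set of instances). -/
def AcyclicInstances (E Q : Set (Term F ar × Term F ar)) : Prop :=
  Q.Finite ∧ (∀ p ∈ Q, ∃ l r ρ, (l, r) ∈ E ∧ l.NonVar ∧ r.NonVar ∧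
    p = (l.subst ρ, r.subst ρ)) ∧ ∀ s t : Term F ar, ProperSub s t → ¬ Cong Q s t

end Pool.Agent.Work.MP_8c9686_lc
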