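import Pool.Agent.Work.MP_8c9686_lc.Basic

/-!
Root paths and heights for the congruence generated by a finite acyclic set of pairs of
nonvariable terms.
-/

namespace Pool.Agent.Work.MP_8c9686_lc

open Term Relation

variable {F : Type*} {ar : F → ℕ}

/-- Both terms have the same head and congruent arguments. -/
def Inner (Q : Set (Term F ar × Term F ar)) (a b : Term F ar) : Prop :=
  ∃ f, ∃ ts us : Fin (ar f) → Term F ar, a = app f ts ∧ b = app f us ∧ ∀ i, Cong Q (ts i) (us i)

variable {Q : Set (Term F ar × Term F ar)}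

theorem Inner.cong {a b : Term F ar} (h : Inner Q a b) : Cong Q a b := by
  obtain ⟨f, ts, us, rfl, rfl, h⟩ := h
  exact Cong.congr f h

theorem Inner.refl {a : Term F ar} (h : a.NonVar) : Inner Q a a := by
  obtain ⟨f, ts, rfl⟩ := h
  exact ⟨f, ts, ts, rfl, rfl, fun i => Cong.refl _⟩

theorem Inner.symm {a b : Term F ar} (h : Inner Q a b) : Inner Q b a := by
  obtain ⟨f, ts, us, rfl, rfl, h⟩ := h
  exact ⟨f, us, ts, rfl, rfl, fun i => (h i).symm⟩

theorem Inner.trans {a b c : Term F ar} (h : Inner Q a b) (h' : Inner Q b c) : Inner Q a c := by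
  obtain ⟨f, ts, us, rfl, rfl, h⟩ := h
  obtain ⟨g, us', vs, e, rfl, h'⟩ := h'
  injection e with e1 e2
  subst e1
  cases e2
  exact ⟨f, ts, vs, rfl, rfl, fun i => (h i).trans (h' i)⟩

/-- `RP Q n a b`: there is a proof of `a = b` with `n` root steps. -/
inductive RP (Q : Set (Term F ar × Term F ar)) : ℕ → Term F ar → Term F ar → Prop
  | zero {a b : Term F ar} : Inner Q a b → RP Q 0 a b
  | succ {n : ℕ} {a b l r : Term F ar} : Inner Q a l → ((l, r) ∈ Q ∨ (r, l) ∈ Q) → RP Q n r b →
      RP Q (n + 1) a b

theorem RP.inner_left {n : ℕ} {a a' b : Term F ar} (h : Inner Q a' a) (hr : RP Q n a b) :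
    RP Q n a' b := by
  cases hr with
  | zero h' => exact RP.zero (h.trans h')
  | succ h1 h2 h3 => exact RP.succ (h.trans h1) h2 h3

theorem RP.inner_right {n : ℕ} {a b b' : Term F ar} (hr : RP Q n a b) (h : Inner Q b b') :
    RP Q n a b' := by
  induction hr with
  | zero h' => exact RP.zero (h'.trans h)
  | succ h1 h2 _ ih => exact RP.succ h1 h2 (ih h)

theorem RP.trans {n m : ℕ} {a b c : Term F ar} (h : RP Q n a b) (h' : RP Q m b c) :
    ∃ k, RP Q k a c := by
  induction h with
  | zero h1 => exact ⟨m, h'.inner_left h1⟩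
  | succ h1 h2 _ ih =>
    obtain ⟨k, hk⟩ := ih h'
    exact ⟨k + 1, RP.succ h1 h2 hk⟩

theorem RP.cong {n : ℕ} {a b : Term F ar} (h : RP Q n a b) : Cong Q a b := by
  induction h with
  | zero h => exact h.cong
  | succ h1 h2 _ ih =>
    refine h1.cong.trans (Cong.trans ?_ ih)
    rcases h2 with h2 | h2
    · exact Cong.ax h2
    · exact (Cong.ax h2).symm

/-- all sides of `Q` are nonvariable -/
def NonVarSides (Q : Set (Term F ar × Term F ar)) : Prop := ∀ p ∈ Q, p.1.NonVar ∧ p.2.NonVar

theorem RP.symm (hQ : NonVarSides Q) {n : ℕ} {a b : Term F ar} (h : RP Q n a b) :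
    ∃ k, RP Q k b a := by
  induction h with
  | zero h => exact ⟨0, RP.zero h.symm⟩
  | @succ n a b l r h1 h2 _ ih =>
    obtain ⟨k, hk⟩ := ih
    have hr : r.NonVar := by
      rcases h2 with h2 | h2
      · exact (hQ _ h2).2
      · exact (hQ _ h2).1
    exact hk.trans (RP.succ (Inner.refl hr) h2.symm (RP.zero h1.symm))

theorem Cong.rp (hQ : NonVarSides Q) {a b : Term F ar} (h : Cong Q a b) :
    (∃ x, a = var x ∧ b = var x) ∨ ∃ n, RP Q n a b := by
  induction h with
  | @ax l r h =>
    exact Or.inr ⟨1, RP.succ (Inner.refl (hQ _ h).1) (Or.inl h) (RP.zero (Inner.refl (hQ _ h).2))⟩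
  | refl t =>
    rcases var_or_nonVar t with ⟨x, rfl⟩ | h
    · exact Or.inl ⟨x, rfl, rfl⟩
    · exact Or.inr ⟨0, RP.zero (Inner.refl h)⟩
  | symm _ ih =>
    rcases ih with ⟨x, rfl, rfl⟩ | ⟨n, hn⟩
    · exact Or.inl ⟨x, rfl, rfl⟩
    · exact Or.inr (hn.symm hQ)
  | trans _ _ ih1 ih2 =>
    rcases ih1 with ⟨x, rfl, rfl⟩ | ⟨n, hn⟩
    · exact ih2
    · rcases ih2 with ⟨x, rfl, rfl⟩ | ⟨m, hm⟩
      · exact Or.inr ⟨n, hn⟩
      · exact Or.inr (hn.trans hm)
  | congr f h _ => exact Or.inr ⟨0, RP.zero ⟨f, _, _, rfl, rfl, h⟩⟩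

/-- the sides of `Q` -/
def sides (Q : Set (Term F ar × Term F ar)) : Set (Term F ar) := Prod.fst '' Q ∪ Prod.snd '' Q

/-- the subterms of a term (including the term) -/
def subs : Term F ar → Set (Term F ar)
  | var x => {var x}
  | app f ts => {app f ts} ∪ ⋃ i, subs (ts i)

theorem subs_finite (t : Term F ar) : (subs t).Finite := by
  induction t with
  | var x => exact Set.finite_singleton _
  | app f ts ih => exact (Set.finite_singleton _).union (Set.finite_iUnion ih)

theorem self_mem_subs (t : Term F ar) : t ∈ subs t := by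
  cases t with
  | var x => exact Set.mem_singleton _
  | app f ts => exact Or.inl rfl

theorem arg_mem_subs {t : Term F ar} {f : F} {ts : Fin (ar f) → Term F ar}
    (h : app f ts ∈ subs t) (i : Fin (ar f)) : ts i ∈ subs t := by
  induction t with
  | var x => simp [subs] at h
  | app g us ih =>
    rcases h with h | h
    · injection h with h1 h2
      subst h1
      cases h2
      exact Or.inr (Set.mem_iUnion.2 ⟨i, self_mem_subs _⟩)
    · obtain ⟨j, hj⟩ := Set.mem_iUnion.1 h
      exact Or.inr (Set.mem_iUnion.2 ⟨j, ih j hj⟩)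

/-- the subterms of the sides of `Q` -/
def subSides (Q : Set (Term F ar × Term F ar)) : Set (Term F ar) := ⋃ u ∈ sides Q, subs u

theorem subSides_finite (hQ : Q.Finite) : (subSides Q).Finite :=
  ((hQ.image _).union (hQ.image _)).biUnion fun u _ => subs_finite u

theorem arg_mem_subSides {f : F} {ts : Fin (ar f) → Term F ar}
    (h : app f ts ∈ subSides Q) (i : Fin (ar f)) : ts i ∈ subSides Q := by
  simp only [subSides, Set.mem_iUnion] at h ⊢
  obtain ⟨u, hu, h⟩ := h
  exact ⟨u, hu, arg_mem_subs h i⟩

/-- congruent terms are equal, or have congruent arguments, or both are root-congruent to sides -/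
theorem Cong.touch (hQ : NonVarSides Q) {a b : Term F ar} (h : Cong Q a b) :
    (a = b ∨ Inner Q a b) ∨ (∃ u ∈ sides Q, Inner Q a u) ∧ ∃ u ∈ sides Q, Inner Q b u := by
  rcases h.rp hQ with ⟨x, rfl, rfl⟩ | ⟨n, hn⟩
  · exact Or.inl (Or.inl rfl)
  · have key : ∀ {n : ℕ} {a b : Term F ar}, RP Q (n + 1) a b → ∃ u ∈ sides Q, Inner Q a u := by
      intro n a b h
      cases h with
      | @succ _ _ _ l r h1 h2 _ =>
        refine ⟨l, ?_, h1⟩
        rcases h2 with h2 | h2
        · exact Or.inl ⟨_, h2, rfl⟩
        · exact Or.inr ⟨_, h2, rfl⟩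
    cases n with
    | zero => cases hn with | zero h => exact Or.inl (Or.inr h)
    | succ n =>
      obtain ⟨k, hk⟩ := hn.symm hQ
      cases k with
      | zero => cases hk with | zero h => exact Or.inl (Or.inr h.symm)
      | succ k => exact Or.inr ⟨key hn, key hk⟩

/-- `Low Q a' a`: `a'` is congruent to an argument of a term congruent to `a`. -/
def Low (Q : Set (Term F ar × Term F ar)) (a' a : Term F ar) : Prop :=
  ∃ f, ∃ ts : Fin (ar f) → Term F ar, ∃ i, Cong Q (app f ts) a ∧ Cong Q a' (ts i)

theorem Low.congr_right {a' a b : Term F ar} (h : Low Q a' a) (hab : Cong Q a b) : Low Q a' b := by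
  obtain ⟨f, ts, i, h1, h2⟩ := h
  exact ⟨f, ts, i, h1.trans hab, h2⟩

theorem Low.congr_left {a' b' a : Term F ar} (h : Low Q a' a) (hab : Cong Q b' a') :
    Low Q b' a := by
  obtain ⟨f, ts, i, h1, h2⟩ := h
  exact ⟨f, ts, i, h1, hab.trans h2⟩

theorem low_arg (f : F) (ts : Fin (ar f) → Term F ar) (i : Fin (ar f)) :
    Low Q (ts i) (app f ts) := ⟨f, ts, i, Cong.refl _, Cong.refl _⟩

theorem acc_congr {a b : Term F ar} (h : Acc (Low Q) a) (hab : Cong Q a b) :
    Acc (Low Q) b :=
  Acc.intro b fun _ hy => h.inv (hy.congr_right hab.symm)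

/-- replacing a proper subterm by a congruent term -/
theorem replace_sub {s t s' : Term F ar} (h : ProperSub s t) (hs : Cong Q s s') :
    ∃ t', Cong Q t t' ∧ ProperSub s' t' := by
  unfold ProperSub at h
  induction h with
  | single h =>
    obtain ⟨f, ts, i⟩ := h
    refine ⟨app f (Function.update ts i s'), Cong.congr f fun j => ?_, ?_⟩
    · by_cases hj : j = i
      · subst hj; simpa using hs
      · rw [Function.update_of_ne hj]; exact Cong.refl _
    · apply TransGen.single
      have := DirectSub.mk f (Function.update ts i s') i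
      simpa using this
  | tail _ h ih =>
    obtain ⟨t', h1, h2⟩ := ih
    obtain ⟨f, ts, i⟩ := h
    refine ⟨app f (Function.update ts i t'), Cong.congr f fun j => ?_, ?_⟩
    · by_cases hj : j = i
      · subst hj; simpa using h1
      · rw [Function.update_of_ne hj]; exact Cong.refl _
    · refine TransGen.tail h2 ?_
      have := DirectSub.mk f (Function.update ts i t') i
      simpa using this

theorem transGen_low_sub {a b : Term F ar} (h : TransGen (Low Q) a b) :
    ∃ a' b', Cong Q a a' ∧ Cong Q b b' ∧ ProperSub a' b' := by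
  induction h with
  | single h =>
    obtain ⟨f, ts, i, h1, h2⟩ := h
    exact ⟨ts i, app f ts, h2, h1.symm, TransGen.single (DirectSub.mk f ts i)⟩
  | tail _ h ih =>
    obtain ⟨a', b', h1, h2, h3⟩ := ih
    obtain ⟨f, ts, i, h4, h5⟩ := h
    -- `b ~ ts i`, `b ~ b'`; replace the argument `ts i` of `app f ts` by `b'`
    have h6 : Cong Q (ts i) b' := h5.symm.trans h2
    obtain ⟨t', h7, h8⟩ := replace_sub (TransGen.single (DirectSub.mk f ts i)) h6
    exact ⟨a', t', h1, h4.symm.trans h7, TransGen.trans h3 h8⟩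

/-- no term is congruent to a proper subterm of itself -/
def Acyclic (Q : Set (Term F ar × Term F ar)) : Prop :=
  ∀ s t : Term F ar, ProperSub s t → ¬ Cong Q s t

theorem low_wf (hfin : Q.Finite) (hQ : NonVarSides Q) (hac : Acyclic Q) :
    WellFounded (Low Q) := by
  have hfinU := subSides_finite hfin
  have irr : ∀ a : Term F ar, ¬ TransGen (Low Q) a a := by
    intro a ha
    obtain ⟨a', b', h1, h2, h3⟩ := transGen_low_sub ha
    exact hac _ _ h3 (h1.symm.trans h2)
  -- members of the finite set are accessible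
  have h1 : ∀ u ∈ subSides Q, Acc (Low Q) u := by
    have : Finite (subSides Q) := hfinU
    let r : subSides Q → subSides Q → Prop := fun a b => TransGen (Low Q) a.1 b.1
    have htr : IsTrans _ r := ⟨fun a b c h h' => TransGen.trans h h'⟩
    have hir : Std.Irrefl r := ⟨fun a h => irr _ h⟩
    have hwf : WellFounded r := Finite.wellFounded_of_trans_of_irrefl r
    have : ∀ u : subSides Q, Acc (Low Q) u.1 := by
      intro u
      induction u using hwf.induction with
      | _ u ih =>
        refine Acc.intro _ fun a ha => ?_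
        obtain ⟨f, ts, i, h1, h2⟩ := ha
        have key : ∃ u' ∈ subSides Q, Cong Q (ts i) u' := by
          have side : ∀ w ∈ subSides Q, Inner Q (app f ts) w → ∃ u' ∈ subSides Q, Cong Q (ts i) u' := by
            rintro w hw ⟨g, ts', us, e, rfl, h⟩
            injection e with e1 e2
            subst e1
            cases e2
            exact ⟨us i, arg_mem_subSides hw i, h i⟩
          rcases h1.touch hQ with (h | h) | ⟨⟨w, hw, h⟩, _⟩
          · have hu := u.2
            rw [← h] at hu
            exact ⟨ts i, arg_mem_subSides hu i, Cong.refl _⟩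
          · exact side _ u.2 h
          · refine side w ?_ h
            simp only [subSides, Set.mem_iUnion]
            exact ⟨w, hw, self_mem_subs w⟩
        obtain ⟨u', hu', h3⟩ := key
        have h4 : Low Q u' u := ⟨f, ts, i, h1, h3.symm⟩
        exact acc_congr (ih ⟨u', hu'⟩ (TransGen.single h4)) (h2.trans h3).symm
    exact fun u hu => this ⟨u, hu⟩
  -- all terms
  constructor
  intro t
  induction t with
  | var x =>
    refine Acc.intro _ fun a ha => ?_
    obtain ⟨f, ts, i, h, _⟩ := ha
    rcases h.rp hQ with ⟨y, hy, _⟩ | ⟨n, hn⟩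
    · cases hy
    · obtain ⟨k, hk⟩ := hn.symm hQ
      cases hk with
      | zero h => obtain ⟨g, us, vs, e, _⟩ := h; cases e
      | succ h _ _ => obtain ⟨g, us, vs, e, _⟩ := h; cases e
  | app f ts ih =>
    by_cases hu : ∃ u ∈ sides Q, Inner Q (app f ts) u
    · obtain ⟨u, hu, h⟩ := hu
      refine acc_congr (h1 u ?_) h.symm.cong
      simp only [subSides, Set.mem_iUnion]
      exact ⟨u, hu, self_mem_subs u⟩
    · refine Acc.intro _ fun a ha => ?_
      obtain ⟨g, us, i, h, h'⟩ := ha
      rcases h.touch hQ with (h | h) | ⟨_, h⟩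
      · cases h
        exact acc_congr (ih i) h'.symm
      · obtain ⟨k, ts', us', e1, e2, h⟩ := h
        cases e1
        cases e2
        exact acc_congr (ih i) ((h i).symm.trans h'.symm)
      · exact absurd h hu

/-- the height of a term -/
noncomputable def ht (hwf : WellFounded (Low Q)) (t : Term F ar) : Ordinal :=
  (hwf.apply t).rank

theorem ht_lt (hwf : WellFounded (Low Q)) {a b : Term F ar} (h : Low Q a b) :
    ht hwf a < ht hwf b := (hwf.apply b).rank_lt_of_rel h

theorem ht_arg (hwf : WellFounded (Low Q)) (f : F) (ts : Fin (ar f) → Term F ar)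
    (i : Fin (ar f)) : ht hwf (ts i) < ht hwf (app f ts) :=
  ht_lt hwf (low_arg f ts i)

theorem ht_congr (hwf : WellFounded (Low Q)) {a b : Term F ar} (h : Cong Q a b) :
    ht hwf a = ht hwf b := by
  have key : ∀ {a b : Term F ar}, Cong Q a b → ht hwf a ≤ ht hwf b := by
    intro a b h
    by_contra hlt
    push Not at hlt
    unfold ht at hlt
    rw [(hwf.apply a).rank_eq, Ordinal.lt_iSup_iff] at hlt
    obtain ⟨⟨c, hc⟩, h1⟩ := hlt
    have h2 := ht_lt hwf (hc.congr_right h)
    exact absurd (Order.lt_succ_iff.1 h1) (not_le.2 h2)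
  exact le_antisymm (key h) (key h.symm)

/-- a variable cannot be congruent to a term properly containing it -/
theorem not_cong_of_mem (hwf : WellFounded (Low Q)) {θ : ℕ → Term F ar} {x : ℕ} {t : Term F ar}
    (hx : x ∈ t.vars) (ht' : t ≠ var x) : ¬ Cong Q (θ x) (t.subst θ) := by
  intro h
  have h1 : ∀ t : Term F ar, x ∈ t.vars → ht hwf (θ x) ≤ ht hwf (t.subst θ) := by
    intro t
    induction t with
    | var y => intro h; simp only [mem_vars_var] at h; subst h; exact le_refl _
    | app f ts ih =>
      intro h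
      simp only [mem_vars_app] at h
      obtain ⟨i, hi⟩ := h
      exact (ih i hi).trans (ht_arg hwf f (fun i => (ts i).subst θ) i).le
  cases t with
  | var y => simp only [mem_vars_var] at hx; subst hx; exact ht' rfl
  | app f ts =>
    simp only [mem_vars_app] at hx
    obtain ⟨i, hi⟩ := hx
    have h2 := (h1 (ts i) hi).trans_lt (ht_arg hwf f (fun i => (ts i).subst θ) i)
    have h3 := ht_congr hwf h
    rw [h3] at h2
    exact lt_irrefl _ h2

end Pool.Agent.Work.MP_8c9686_lc
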