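import Pool.Agent.Work.MP_8c9686_lc.Solve

/-!
Completeness of the eager derivations for simple theories and, more generally, with respect to
unifiers with an acyclic proof.
-/

namespace Pool.Agent.Work.MP_8c9686_lc

open Term Relation

variable {F : Type*} {ar : F → ℕ} {Q : Set (Term F ar × Term F ar)}
  {E : Set (Term F ar × Term F ar)} {R : Finset ℕ × Sys F ar → Finset ℕ × Sys F ar → Prop}

theorem Compat.inner {V V' : Finset ℕ} {θ θ' σ : ℕ → Term F ar} (h : Compat Q V θ V' θ' σ)
    {t : Term F ar} (hn : t.NonVar) (ht : t.vars ⊆ V) :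
    Inner Q ((t.subst σ).subst θ') (t.subst θ) := by
  obtain ⟨f, ts, rfl⟩ := hn
  exact ⟨f, _, _, rfl, rfl, fun i => h.term fun x hx => ht (by rw [mem_vars_app]; exact ⟨i, hx⟩)⟩

theorem Compat.comp' {V V1 V2 : Finset ℕ} {θ θ1 θ2 σ2 : ℕ → Term F ar}
    (h1 : Compat Q V θ V1 θ1 fun x => var x) (h2 : Compat Q V1 θ1 V2 θ2 σ2) :
    Compat Q V θ V2 θ2 σ2 := h1.comp h2

/-- validity is symmetric, so it can be read off unordered pairs -/
theorem Inv.tail {V : Finset ℕ} {θ : ℕ → Term F ar} {L : List (ℕ × Term F ar)} {Es A : Sys F ar}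
    (h : Inv Q V θ L (Es + A)) : ∀ s t, s(s, t) ∈ A → Cong Q (s.subst θ) (t.subst θ) :=
  fun s t hst => h.valid s t (Multiset.mem_add.2 (Or.inr hst))

/-- every valid equation of height `h` can be solved in every context -/
def SolvesAt (Q : Set (Term F ar × Term F ar)) (hwf : WellFounded (Low Q))
    (R : Finset ℕ × Sys F ar → Finset ℕ × Sys F ar → Prop) (h : Ordinal) : Prop :=
  ∀ (s t : Term F ar) (V : Finset ℕ) (θ : ℕ → Term F ar) (L : List (ℕ × Term F ar))
    (A : Sys F ar), ht hwf (s.subst θ) = h → Inv Q V θ L (s(s, t) ::ₘ A) →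
    Good Q R V θ L {s(s, t)} A

theorem mem_sysSubst {σ : ℕ → Term F ar} {A : Sys F ar} {u v : Term F ar}
    (h : s(u, v) ∈ sysSubst σ A) : ∃ u' v', s(u', v') ∈ A ∧ u = u'.subst σ ∧ v = v'.subst σ := by
  simp only [sysSubst, Multiset.mem_map] at h
  obtain ⟨e, he, huv⟩ := h
  induction e with
  | _ u' v' =>
    rw [Sym2.map_mk, Sym2.eq_iff] at huv
    rcases huv with ⟨rfl, rfl⟩ | ⟨rfl, rfl⟩
    · exact ⟨u', v', he, rfl, rfl⟩
    · exact ⟨v', u', by rw [Sym2.eq_swap]; exact he, rfl, rfl⟩

theorem vars_subset {V : Finset ℕ} {θ : ℕ → Term F ar} {L : List (ℕ × Term F ar)} {A : Sys F ar}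
    (h : Inv Q V θ L A) {u v : Term F ar} (huv : s(u, v) ∈ A) : u.vars ⊆ V ∧ v.vars ⊆ V := by
  constructor
  · intro x hx
    apply h.vars
    rw [sysVars_add, Finset.mem_union]
    right
    rw [mem_sysVars]
    exact ⟨_, huv, by rw [mem_eqVars]; exact Or.inl hx⟩
  · intro x hx
    apply h.vars
    rw [sysVars_add, Finset.mem_union]
    right
    rw [mem_sysVars]
    exact ⟨_, huv, by rw [mem_eqVars]; exact Or.inr hx⟩

/-- a finite system of equations of smaller height can be solved -/
theorem solve_list {hwf : WellFounded (Low Q)} {h : Ordinal}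
    (ih : ∀ h' < h, SolvesAt Q hwf R h') :
    ∀ (n : ℕ) (Es : Sys F ar), Multiset.card Es = n → ∀ (V : Finset ℕ) (θ : ℕ → Term F ar)
      (L : List (ℕ × Term F ar)) (A : Sys F ar),
      (∀ s t, s(s, t) ∈ Es → ht hwf (s.subst θ) < h) → Inv Q V θ L (Es + A) →
      Good Q R V θ L Es A := by
  intro n
  induction n with
  | zero =>
    intro Es hEs V θ L A _ hinv
    rw [Multiset.card_eq_zero] at hEs
    subst hEs
    rw [zero_add] at hinv
    refine ⟨V, θ, L, fun x => var x, ?_, Compat.id subset_rfl fun _ _ => rfl, ?_⟩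
    · rw [sysSubst_id, zero_add]
    · rw [sysSubst_id]; exact hinv
  | succ n ihn =>
    intro Es hEs V θ L A hht hinv
    obtain ⟨e, Es', rfl⟩ : ∃ e Es', Es = e ::ₘ Es' := by
      have : Es ≠ 0 := by rintro rfl; simp at hEs
      obtain ⟨e, he⟩ := Multiset.exists_mem_of_ne_zero this
      exact ⟨e, _, (Multiset.exists_cons_of_mem he).choose_spec⟩
    rw [Multiset.card_cons] at hEs
    have hEs' : Multiset.card Es' = n := by omega
    induction e with
    | _ s t =>
      rw [Multiset.cons_add] at hinv
      obtain ⟨V1, θ1, L1, σ1, hr1, hc1, hi1⟩ :=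
        ih _ (hht s t (by simp)) s t V θ L (Es' + A) rfl hinv
      rw [sysSubst_add] at hi1
      obtain ⟨V2, θ2, L2, σ2, hr2, hc2, hi2⟩ := ihn (sysSubst σ1 Es')
        (by rw [sysSubst, Multiset.card_map]; exact hEs') V1 θ1 L1 (sysSubst σ1 A)
        (by
          intro u v huv
          obtain ⟨u', v', h1, rfl, rfl⟩ := mem_sysSubst huv
          have h2 : s(u', v') ∈ s(s, t) ::ₘ (Es' + A) := by simp [h1]
          rw [ht_congr hwf (hc1.term (vars_subset hinv h2).1)]
          exact hht u' v' (by simp [h1]))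
        hi1
      refine ⟨V2, θ2, L2, fun x => (σ1 x).subst σ2, ?_, hc1.comp hc2, ?_⟩
      · rw [← sysSubst_sysSubst]
        refine ReflTransGen.trans ?_ hr2
        rw [← sysSubst_add]
        have e1 : s(s, t) ::ₘ Es' + A = {s(s, t)} + (Es' + A) := by
          rw [Multiset.cons_add, Multiset.singleton_add]
        rw [e1]
        exact hr1
      · rw [← sysSubst_sysSubst]; exact hi2

theorem mem_ofFn {f : F} {a b : Fin (ar f) → Term F ar} {u v : Term F ar}
    (h : s(u, v) ∈ (List.ofFn fun i => s(a i, b i) : Sys F ar)) :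
    ∃ i, (u = a i ∧ v = b i) ∨ (u = b i ∧ v = a i) := by
  rw [Multiset.mem_coe, List.mem_ofFn] at h
  obtain ⟨i, hi⟩ := h
  refine ⟨i, ?_⟩
  rw [Sym2.eq_iff] at hi
  rcases hi with ⟨h1, h2⟩ | ⟨h1, h2⟩
  · exact Or.inl ⟨h1.symm, h2.symm⟩
  · exact Or.inr ⟨h2.symm, h1.symm⟩

theorem sysOcc_ofFn (x : ℕ) {f : F} (a b : Fin (ar f) → Term F ar) :
    sysOcc x (List.ofFn fun i => s(a i, b i) : Sys F ar) = ∑ i, ((a i).occ x + (b i).occ x) := by
  simp only [sysOcc, Multiset.map_coe, Multiset.sum_coe, List.map_ofFn, List.sum_ofFn]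
  rfl

theorem mem_sysVars_ofFn {x : ℕ} {f : F} {a b : Fin (ar f) → Term F ar} :
    x ∈ sysVars (List.ofFn fun i => s(a i, b i) : Sys F ar) ↔
      x ∈ (app f a).vars ∨ x ∈ (app f b).vars := by
  rw [mem_sysVars]
  simp only [Multiset.mem_coe, List.mem_ofFn, mem_vars_app]
  constructor
  · rintro ⟨e, ⟨i, rfl⟩, h⟩
    rw [mem_eqVars] at h
    rcases h with h | h
    · exact Or.inl ⟨i, h⟩
    · exact Or.inr ⟨i, h⟩
  · rintro (⟨i, h⟩ | ⟨i, h⟩)
    · exact ⟨_, ⟨i, rfl⟩, by rw [mem_eqVars]; exact Or.inl h⟩
    · exact ⟨_, ⟨i, rfl⟩, by rw [mem_eqVars]; exact Or.inr h⟩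

/-- all elements of `Q` are instances of equations of `E` with nonvariable sides -/
def Insts (E Q : Set (Term F ar × Term F ar)) : Prop :=
  ∀ p ∈ Q, ∃ l r ρ, (l, r) ∈ E ∧ l.NonVar ∧ r.NonVar ∧ p = (l.subst ρ, r.subst ρ)

theorem Insts.nonVarSides (h : Insts E Q) : NonVarSides Q := by
  intro p hp
  obtain ⟨l, r, ρ, _, hl, hr, rfl⟩ := h p hp
  exact ⟨nonVar_subst hl ρ, nonVar_subst hr ρ⟩

/-- a fresh variant of a used equation, with the matching extension of the unifier -/
theorem exists_fresh (hI : Insts E Q) {l0 r0 : Term F ar} (h : (l0, r0) ∈ Q ∨ (r0, l0) ∈ Q)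
    (V : Finset ℕ) (θ : ℕ → Term F ar) :
    ∃ l r θ', FreshVariant E V l r ∧ l.NonVar ∧ r.NonVar ∧ (∀ x ∈ V, θ' x = θ x) ∧
      l.subst θ' = l0 ∧ r.subst θ' = r0 := by
  obtain ⟨l1, r1, ρ, hE, hl, hr, e1, e2⟩ : ∃ l1 r1 ρ, ((l1, r1) ∈ E ∨ (r1, l1) ∈ E) ∧ l1.NonVar ∧
      r1.NonVar ∧ l1.subst ρ = l0 ∧ r1.subst ρ = r0 := by
    rcases h with h | h
    · obtain ⟨l, r, ρ, h1, h2, h3, h4⟩ := hI _ h
      cases h4
      exact ⟨l, r, ρ, Or.inl h1, h2, h3, rfl, rfl⟩
    · obtain ⟨l, r, ρ, h1, h2, h3, h4⟩ := hI _ h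
      cases h4
      exact ⟨r, l, ρ, Or.inr h1, h3, h2, rfl, rfl⟩
  obtain ⟨N, hN⟩ : ∃ N, ∀ x ∈ V, x < N := ⟨V.sup id + 1, fun x hx =>
    Nat.lt_succ_of_le (Finset.le_sup (f := id) hx)⟩
  have hdis : ∀ t : Term F ar, Disjoint (t.subst fun x => var (x + N)).vars V := by
    intro t
    rw [Finset.disjoint_left]
    intro x hx hxV
    rw [mem_vars_subst] at hx
    obtain ⟨y, _, hy⟩ := hx
    rw [mem_vars_var] at hy
    have := hN x hxV
    omega
  refine ⟨l1.subst fun x => var (x + N), r1.subst fun x => var (x + N),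
    fun x => if x ∈ V then θ x else ρ (x - N),
    ⟨l1, r1, hE, fun x => x + N, fun x y h => by simpa using h, rfl, rfl, hdis _, hdis _⟩,
    nonVar_subst hl _, nonVar_subst hr _, fun x hx => by simp [hx], ?_, ?_⟩
  · rw [subst_subst, ← e1]
    congr 1
    funext x
    have : x + N ∉ V := fun h => by have := hN _ h; omega
    simp [this]
  · rw [subst_subst, ← e2]
    congr 1
    funext x
    have : x + N ∉ V := fun h => by have := hN _ h; omega
    simp [this]

/-- equations between nonvariable terms -/
theorem solve_nonvar (hR : Rules E R) (hI : Insts E Q) {hwf : WellFounded (Low Q)} {h : Ordinal}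
    (ih : ∀ h' < h, SolvesAt Q hwf R h') :
    ∀ (n : ℕ) (s t : Term F ar) (V : Finset ℕ) (θ : ℕ → Term F ar) (L : List (ℕ × Term F ar))
      (A : Sys F ar), s.NonVar → t.NonVar → ht hwf (s.subst θ) = h →
      RP Q n (s.subst θ) (t.subst θ) → Inv Q V θ L (s(s, t) ::ₘ A) →
      Good Q R V θ L {s(s, t)} A := by
  intro n
  induction n with
  | zero =>
    intro s t V θ L A hs ht' hh hrp hinv
    obtain ⟨f, a, rfl⟩ := hs
    obtain ⟨g, b, rfl⟩ := ht'
    cases hrp with
    | zero hin =>
      obtain ⟨k, ts, us, e1, e2, hc⟩ := hin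
      simp only [subst_app] at e1 e2
      injection e1 with e3 e4
      subst e3
      injection e2 with e5 e6
      subst e5
      cases e4
      cases e6
      -- decomposition
      set D : Sys F ar := (List.ofFn fun i => s(a i, b i) : Sys F ar) with hD
      have hstep := hR.dec V g a b (bsys L + A)
      have hinv' : Inv Q V θ L (D + A) := by
        refine ⟨?_, ?_, hinv.bind, ?_⟩
        · intro x hx
          apply hinv.vars
          rw [sysVars_add, sysVars_add] at hx
          rw [sysVars_add, sysVars_cons]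
          simp only [Finset.mem_union, hD, mem_sysVars_ofFn] at hx ⊢
          tauto
        · intro p hp
          rw [← hinv.once p hp, sysOcc_add, sysOcc_add, sysOcc_add, sysOcc_cons, hD, sysOcc_ofFn]
          simp only [eqOcc, Sym2.lift_mk, occ, Finset.sum_add_distrib]
        · intro u v huv
          rw [Multiset.mem_add] at huv
          rcases huv with huv | huv
          · obtain ⟨i, ⟨rfl, rfl⟩ | ⟨rfl, rfl⟩⟩ := mem_ofFn huv
            · exact hc i
            · exact (hc i).symm
          · exact hinv.valid u v (by simp [huv])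
      have hht : ∀ u v, s(u, v) ∈ D → ht hwf (u.subst θ) < h := by
        intro u v huv
        obtain ⟨i, ⟨rfl, rfl⟩ | ⟨rfl, rfl⟩⟩ := mem_ofFn huv
        · rw [← hh]
          exact ht_arg hwf g (fun i => (a i).subst θ) i
        · rw [← hh, ← ht_congr hwf (hc i)]
          exact ht_arg hwf g (fun i => (a i).subst θ) i
      obtain ⟨V', θ', L', σ, h1, h2, h3⟩ := solve_list ih _ D rfl V θ L A hht hinv'
      refine ⟨V', θ', L', σ, ReflTransGen.trans ?_ h1, h2, h3⟩
      have e1 : bsys L + ({s(app g a, app g b)} + A) = s(app g a, app g b) ::ₘ (bsys L + A) := by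
        rw [Multiset.singleton_add, Multiset.add_cons]
      have e2 : bsys L + (D + A) = D + (bsys L + A) := by
        rw [← add_assoc, add_comm (bsys L) D, add_assoc]
      rw [e1, e2]
      exact hstep
  | succ n ihn =>
    intro s t V θ L A hs ht' hh hrp hinv
    obtain ⟨f, a, rfl⟩ := hs
    cases hrp with
    | @succ _ _ _ l0 r0 hin hQ hrp =>
      obtain ⟨l, r, θ', hfr, hl, hr, hθ, hl0, hr0⟩ := exists_fresh hI hQ V θ
      obtain ⟨g, b, rfl⟩ := hl
      obtain ⟨k, ts, us, e1, e2, hc⟩ := hin
      rw [← hl0] at e2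
      simp only [subst_app] at e1 e2
      injection e1 with e3 e4
      subst e3
      injection e2 with e5 e6
      subst e5
      cases e4
      cases e6
      -- now `hc : ∀ i, Cong Q ((a i).subst θ) ((b i).subst θ')`
      set D : Sys F ar := (List.ofFn fun i => s(a i, b i) : Sys F ar) with hD
      set V1 := V ∪ (app g b).vars ∪ r.vars with hV1
      have hstep := hR.rlp V t r g a b (bsys L + A) hfr ht'
      obtain ⟨_, _, _, _, _, _, _, hdl, hdr⟩ := hfr
      have hVV1 : V ⊆ V1 := by
        intro x hx; simp only [hV1, Finset.mem_union]; tauto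
      have hsub : ∀ u : Term F ar, u.vars ⊆ V → u.subst θ' = u.subst θ := fun u hu =>
        subst_congr fun x hx => hθ x (hu hx)
      have hsV := vars_subset hinv (u := app g a) (v := t) (by simp)
      have haV : ∀ i, (a i).vars ⊆ V := fun i x hx => hsV.1 (by rw [mem_vars_app]; exact ⟨i, hx⟩)
      have hc' : ∀ i, Cong Q ((a i).subst θ') ((b i).subst θ') := by
        intro i; rw [hsub _ (haV i)]; exact hc i
      have hinv' : Inv Q V1 θ' L (D + s(r, t) ::ₘ A) := by
        refine ⟨?_, ?_, ?_, ?_⟩
        · intro x hx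
          have hx' : x ∈ V → x ∈ V1 := fun h => hVV1 h
          rw [sysVars_add, sysVars_add, sysVars_cons] at hx
          simp only [Finset.mem_union, hD, mem_sysVars_ofFn] at hx
          rcases hx with hx | (hx | hx) | (hx | hx) | hx
          · exact hVV1 (hinv.vars (by rw [sysVars_add]; simp [hx]))
          · exact hVV1 (hsV.1 hx)
          · simp only [hV1, Finset.mem_union]; tauto
          · simp only [hV1, Finset.mem_union]; tauto
          · exact hVV1 (hsV.2 hx)
          · exact hVV1 (hinv.vars (by rw [sysVars_add, sysVars_cons]; simp [hx]))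
        · intro p hp
          have hpV : p.1 ∈ V := hinv.vars (by
            rw [sysVars_add, Finset.mem_union]
            left
            rw [mem_sysVars]
            exact ⟨_, mem_bsys hp, by rw [mem_eqVars]; simp⟩)
          have hb0 : (app g b).occ p.1 = 0 := occ_eq_zero.2 fun h =>
            Finset.disjoint_left.1 hdl h hpV
          have hr0' : r.occ p.1 = 0 := occ_eq_zero.2 fun h =>
            Finset.disjoint_left.1 hdr h hpV
          simp only [occ] at hb0
          rw [← hinv.once p hp, sysOcc_add, sysOcc_add, sysOcc_add, sysOcc_cons, sysOcc_cons, hD,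
            sysOcc_ofFn]
          simp only [eqOcc, Sym2.lift_mk, occ, Finset.sum_add_distrib, hb0, hr0']
          ring
        · intro p hp
          have hmem := mem_bsys hp
          have hpV : p.1 ∈ V := hinv.vars (by
            rw [sysVars_add, Finset.mem_union]
            left
            rw [mem_sysVars]
            exact ⟨_, hmem, by rw [mem_eqVars]; simp⟩)
          have hp2 : p.2.vars ⊆ V := fun x hx => hinv.vars (by
            rw [sysVars_add, Finset.mem_union]
            left
            rw [mem_sysVars]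
            exact ⟨_, hmem, by rw [mem_eqVars]; simp [hx]⟩)
          rw [hθ _ hpV, hsub _ hp2]
          exact hinv.bind p hp
        · intro u v huv
          rw [Multiset.mem_add, Multiset.mem_cons] at huv
          rcases huv with huv | huv | huv
          · obtain ⟨i, ⟨rfl, rfl⟩ | ⟨rfl, rfl⟩⟩ := mem_ofFn huv
            · exact hc' i
            · exact (hc' i).symm
          · have hrt : Cong Q (r.subst θ') (t.subst θ') := by
              rw [hsub _ hsV.2, hr0]; exact hrp.cong
            rw [Sym2.eq_iff] at huv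
            rcases huv with ⟨rfl, rfl⟩ | ⟨rfl, rfl⟩
            · exact hrt
            · exact hrt.symm
          · have hmem : s(u, v) ∈ s(app g a, t) ::ₘ A := by simp [huv]
            have huV := vars_subset hinv hmem
            rw [hsub _ huV.1, hsub _ huV.2]
            exact hinv.valid u v hmem
      have hht : ∀ u v, s(u, v) ∈ D → ht hwf (u.subst θ') < h := by
        intro u v huv
        have h0 : ∀ i, ht hwf ((a i).subst θ') < h := by
          intro i
          rw [← hh, hsub _ (haV i)]
          exact ht_arg hwf g (fun i => (a i).subst θ) i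
        obtain ⟨i, ⟨rfl, rfl⟩ | ⟨rfl, rfl⟩⟩ := mem_ofFn huv
        · exact h0 i
        · rw [← ht_congr hwf (hc' i)]; exact h0 i
      obtain ⟨V2, θ2, L2, σ2, h1, h2, h3⟩ :=
        solve_list ih _ D rfl V1 θ' L (s(r, t) ::ₘ A) hht hinv'
      rw [sysSubst_cons] at h1 h3
      have hrV1 : r.vars ⊆ V1 := by
        intro x hx; simp only [hV1, Finset.mem_union]; tauto
      have cr : Inner Q ((r.subst σ2).subst θ2) (r.subst θ') := h2.inner hr hrV1
      have ct : Inner Q ((t.subst σ2).subst θ2) (t.subst θ') := h2.inner ht' (hsV.2.trans hVV1)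
      rw [hr0] at cr
      rw [hsub _ hsV.2] at ct
      -- the remaining equation
      have hh2 : ht hwf ((r.subst σ2).subst θ2) = h := by
        rw [ht_congr hwf cr.cong, ht_congr hwf hrp.cong, ← hh]
        exact (ht_congr hwf (hinv.valid _ _ (by simp))).symm
      obtain ⟨V3, θ3, L3, σ3, g1, g2, g3⟩ := ihn (r.subst σ2) (t.subst σ2) V2 θ2 L2 (sysSubst σ2 A)
        (nonVar_subst hr _) (nonVar_subst ht' _) hh2 ((hrp.inner_left cr).inner_right ct.symm) h3
      refine ⟨V3, θ3, L3, fun x => (σ2 x).subst σ3, ?_, ?_, ?_⟩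
      · rw [← sysSubst_sysSubst]
        refine ReflTransGen.trans ?_ g1
        have e3 : bsys L2 + ({s(r.subst σ2, t.subst σ2)} + sysSubst σ2 A) =
            bsys L2 + (s(r.subst σ2, t.subst σ2) ::ₘ sysSubst σ2 A) := by
          rw [Multiset.singleton_add]
        rw [e3]
        refine ReflTransGen.trans ?_ h1
        have e1 : bsys L + ({s(app g a, t)} + A) = s(app g a, t) ::ₘ (bsys L + A) := by
          rw [Multiset.singleton_add, Multiset.add_cons]
        have e2 : bsys L + (D + s(r, t) ::ₘ A) = D + s(r, t) ::ₘ (bsys L + A) := by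
          rw [← add_assoc, add_comm (bsys L) D, add_assoc, Multiset.add_cons]
        rw [e1, e2]
        exact hstep
      · exact ((Compat.id hVV1 hθ).comp' h2).comp g2
      · rw [← sysSubst_sysSubst]; exact g3

/-- every valid equation can be solved -/
theorem solvesAt (hR : Rules E R) (hI : Insts E Q) (hwf : WellFounded (Low Q)) (h : Ordinal) :
    SolvesAt Q hwf R h := by
  induction h using WellFoundedLT.induction with
  | _ h ih =>
    intro s t V θ L A hh hinv
    by_cases hst : s = t
    · subst hst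
      refine ⟨V, θ, L, fun x => var x, ?_, Compat.id subset_rfl fun _ _ => rfl, ?_⟩
      · rw [sysSubst_id]
        have e1 : bsys L + ({s(s, s)} + A) = s(s, s) ::ₘ (bsys L + A) := by
          rw [Multiset.singleton_add, Multiset.add_cons]
        rw [e1]
        exact hR.triv V s _
      · rw [sysSubst_id]
        refine ⟨?_, ?_, hinv.bind, fun u v huv => hinv.valid u v (by simp [huv])⟩
        · intro x hx
          apply hinv.vars
          rw [sysVars_add] at hx
          rw [sysVars_add, sysVars_cons]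
          simp only [Finset.mem_union] at hx ⊢
          tauto
        · intro p hp
          have h1 := hinv.once p hp
          have h2 : 1 ≤ sysOcc p.1 (bsys L) := by
            rw [Nat.one_le_iff_ne_zero]
            intro h0
            rw [sysOcc_eq_zero, mem_sysVars] at h0
            exact h0 ⟨_, mem_bsys hp, by rw [mem_eqVars]; simp⟩
          rw [sysOcc_add, sysOcc_cons] at h1
          rw [sysOcc_add]
          omega
    · have hv := hinv.valid s t (by simp)
      rcases var_or_nonVar s with ⟨x, rfl⟩ | hs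
      · have hx : x ∉ t.vars := fun hx => not_cong_of_mem hwf hx (Ne.symm hst) hv
        exact good_var hR hx hinv
      · rcases var_or_nonVar t with ⟨x, rfl⟩ | ht'
        · have hx : x ∉ s.vars := fun hx => not_cong_of_mem hwf hx hst hv.symm
          rw [Sym2.eq_swap] at hinv ⊢
          exact good_var hR hx hinv
        · rcases hv.rp hI.nonVarSides with ⟨x, hx, _⟩ | ⟨n, hn⟩
          · obtain ⟨f, a, ha⟩ := nonVar_subst hs θ
            rw [ha] at hx
            cases hx
          · exact solve_nonvar hR hI ih n s t V θ L A hs ht' hh hn hinv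

/-- Completeness with respect to a unifier with an acyclic proof. -/
theorem reaches_of_acyclic (hR : Rules E R) (hQ : AcyclicInstances E Q) {S : Sys F ar}
    {θ : ℕ → Term F ar} (hθ : ∀ s t, s(s, t) ∈ S → Cong Q (s.subst θ) (t.subst θ)) :
    Reaches E R S θ := by
  obtain ⟨hfin, hI, hac⟩ := hQ
  have hI : Insts E Q := hI
  have hwf := low_wf hfin hI.nonVarSides hac
  obtain ⟨h, hh⟩ : ∃ h : Ordinal, ∀ s t, s(s, t) ∈ S → ht hwf (s.subst θ) < h := by
    refine ⟨(S.map fun e => Sym2.lift ⟨fun s t => max (ht hwf (s.subst θ)) (ht hwf (t.subst θ)),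
      fun s t => max_comm _ _⟩ e).sup + 1, fun s t hst => ?_⟩
    rw [← Order.succ_eq_add_one, Order.lt_succ_iff]
    refine le_trans ?_ (Multiset.le_sup (Multiset.mem_map_of_mem _ hst))
    simp
  have hinv : Inv Q (sysVars S) θ [] (S + 0) := by
    refine ⟨?_, by simp, by simp, ?_⟩
    · simp [bsys]
    · intro s t hst; exact hθ s t (by simpa using hst)
  obtain ⟨V', θ', L', σ, h1, h2, h3⟩ :=
    solve_list (fun h' _ => solvesAt hR hI hwf h') _ S rfl (sysVars S) θ [] 0 hh hinv
  have e1 : bsys ([] : List (ℕ × Term F ar)) + (S + 0) = S := by simp [bsys]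
  have e2 : bsys L' + sysSubst σ 0 = bsys L' := by simp [sysSubst]
  rw [e1, e2] at h1
  have e3 : sysSubst σ (0 : Sys F ar) = 0 := rfl
  rw [e3] at h3
  have hEq : ∀ {u v : Term F ar}, Cong Q u v → EqE E u v := by
    intro u v huv
    refine huv.mono fun p hp => ?_
    obtain ⟨l, r, ρ, hE, _, _, rfl⟩ := hI p hp
    exact ⟨l, r, ρ, hE, rfl⟩
  classical
  set σ' : ℕ → Term F ar := fun x =>
    if h : ∃ p ∈ L', p.1 = x then (h.choose).2 else var x with hσ'
  have honce : ∀ p ∈ L', sysOcc p.1 (bsys L') = 1 := by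
    intro p hp
    have := h3.once p hp
    rwa [add_zero] at this
  -- bindings are determined by their variable
  have huniq : ∀ p ∈ L', ∀ q ∈ L', p.1 = q.1 → p = q := by
    intro p hp q hq hpq
    by_contra hne
    have h1 := honce p hp
    obtain ⟨L1, L2, hL⟩ := List.append_of_mem hp
    have hq' : q ∈ L1 ++ L2 := by
      rw [hL] at hq
      simp only [List.mem_append, List.mem_cons] at hq ⊢
      rcases hq with hq | hq | hq
      · exact Or.inl hq
      · exact absurd hq.symm hne
      · exact Or.inr hq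
    have hb : bsys L' = s(var p.1, p.2) ::ₘ bsys (L1 ++ L2) := by
      rw [← bsys_cons]
      unfold bsys
      rw [hL]
      rw [Multiset.coe_eq_coe]
      exact List.Perm.map _ List.perm_middle
    rw [hb, sysOcc_cons] at h1
    have h2 : 1 ≤ eqOcc p.1 s(var p.1, p.2) := by
      rw [Nat.one_le_iff_ne_zero]
      intro h0
      rw [eqOcc_eq_zero, mem_eqVars] at h0
      exact h0 (Or.inl (by simp))
    have h3 : 1 ≤ sysOcc p.1 (bsys (L1 ++ L2)) := by
      rw [Nat.one_le_iff_ne_zero]
      intro h0
      rw [sysOcc_eq_zero, mem_sysVars] at h0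
      exact h0 ⟨_, mem_bsys hq', by rw [mem_eqVars]; simp [hpq]⟩
    omega
  have hσL : ∀ p ∈ L', σ' p.1 = p.2 := by
    intro p hp
    have hex : ∃ q ∈ L', q.1 = p.1 := ⟨p, hp, rfl⟩
    simp only [hσ', dif_pos hex]
    rw [huniq _ hex.choose_spec.1 p hp hex.choose_spec.2]
  have hσn : ∀ x, (∀ p ∈ L', p.1 ≠ x) → σ' x = var x := by
    intro x hx
    simp only [hσ']
    rw [dif_neg]
    rintro ⟨p, hp, h⟩
    exact hx p hp h
  refine ⟨V', bsys L', σ', h1, ⟨L', rfl, fun p hp => ⟨honce p hp, hσL p hp⟩, hσn⟩, θ', ?_⟩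
  intro x hx
  rw [← h2.agree x hx]
  by_cases hex : ∃ p ∈ L', p.1 = x
  · obtain ⟨p, hp, rfl⟩ := hex
    rw [hσL p hp]
    exact hEq (h3.bind p hp).symm
  · push Not at hex
    rw [hσn x hex]
    exact Cong.refl _

/-- A unifier modulo a simple theory has an acyclic proof. -/
theorem exists_acyclic (hE : Simple E) {S : Sys F ar} {θ : ℕ → Term F ar}
    (hθ : Unifies E θ S) : ∃ Q, AcyclicInstances E Q ∧
      ∀ s t, s(s, t) ∈ S → Cong Q (s.subst θ) (t.subst θ) := by
  obtain ⟨hcons, hsimple⟩ := hE
  -- every equation has nonvariable sides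
  have hside : ∀ l r, (l, r) ∈ E → (l.NonVar ∧ r.NonVar) ∨ l = r := by
    intro l r hlr
    have key : ∀ (x : ℕ) (r : Term F ar), (∀ ρ, EqE E (ρ x) (r.subst ρ)) → r = var x := by
      intro x r hr
      by_contra hne
      by_cases hx : x ∈ r.vars
      · -- `x` is a proper subterm of `r`
        have hsub : ∀ t : Term F ar, x ∈ t.vars → t = var x ∨ ProperSub (var x) t := by
          intro t
          induction t with
          | var y => intro h; rw [mem_vars_var] at h; subst h; exact Or.inl rfl
          | app f ts ih =>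
            intro h
            rw [mem_vars_app] at h
            obtain ⟨i, hi⟩ := h
            right
            rcases ih i hi with h | h
            · rw [← h]; exact TransGen.single (DirectSub.mk f ts i)
            · exact TransGen.tail h (DirectSub.mk f ts i)
        have h1 := (hsub r hx).resolve_left hne
        have h2 := hr fun y => var y
        rw [subst_id] at h2
        exact hsimple _ _ h1 h2
      · -- all terms are equal
        have h1 := hr fun y => if y = x then var 0 else var y
        have h2 := hr fun y => if y = x then var 1 else var y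
        have h3 : r.subst (fun y => if y = x then var 0 else var y) =
            r.subst (fun y => if y = x then var 1 else var y) := by
          apply subst_congr
          intro y hy
          have : y ≠ x := by rintro rfl; exact hx hy
          simp [this]
        rw [h3] at h1
        simp only [if_true] at h1 h2
        exact hcons (h1.trans h2.symm)
    rcases var_or_nonVar l with ⟨x, rfl⟩ | hl
    · right
      exact (key x r fun ρ => Cong.ax ⟨_, _, ρ, hlr, rfl⟩).symm
    · rcases var_or_nonVar r with ⟨x, rfl⟩ | hr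
      · right
        exact key x l fun ρ => Cong.symm (Cong.ax ⟨_, _, ρ, hlr, rfl⟩)
      · exact Or.inl ⟨hl, hr⟩
  -- drop the trivial instances
  set I : Set (Term F ar × Term F ar) := {p | ∃ l r ρ, (l, r) ∈ E ∧ l.NonVar ∧ r.NonVar ∧
    p = (l.subst ρ, r.subst ρ)} with hIdef
  have hEI : ∀ {u v : Term F ar}, EqE E u v → Cong I u v := by
    intro u v h
    induction h with
    | ax h =>
      obtain ⟨l, r, ρ, hlr, hp⟩ := h
      cases hp
      rcases hside l r hlr with ⟨hl, hr⟩ | rfl
      · exact Cong.ax ⟨l, r, ρ, hlr, hl, hr, rfl⟩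
      · exact Cong.refl _
    | refl t => exact Cong.refl t
    | symm _ ih => exact ih.symm
    | trans _ _ ih1 ih2 => exact ih1.trans ih2
    | congr f _ ih => exact Cong.congr f ih
  have hIE : I ⊆ inst E := by
    rintro p ⟨l, r, ρ, h, _, _, rfl⟩
    exact ⟨l, r, ρ, h, rfl⟩
  obtain ⟨Q, hfin, hQI, hQ⟩ : ∃ Q : Set (Term F ar × Term F ar), Q.Finite ∧ Q ⊆ I ∧
      ∀ s t, s(s, t) ∈ S → Cong Q (s.subst θ) (t.subst θ) := by
    have hθ' : ∀ s t, s(s, t) ∈ S → Cong I (s.subst θ) (t.subst θ) := fun s t hst =>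
      hEI (hθ s t hst)
    clear hθ
    induction S using Multiset.induction_on with
    | empty => exact ⟨∅, Set.finite_empty, Set.empty_subset _, by simp⟩
    | cons e S ih =>
      induction e with
      | _ u v =>
        obtain ⟨Q1, h1, h2, h3⟩ := ih fun s t hst => hθ' s t (by simp [hst])
        obtain ⟨Q2, h4, h5, h6⟩ := (hθ' u v (by simp)).exists_finite
        refine ⟨Q1 ∪ Q2, h1.union h4, Set.union_subset h2 h5, fun s t hst => ?_⟩
        rw [Multiset.mem_cons] at hst
        rcases hst with hst | hst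
        · have h7 := h6.mono (Set.subset_union_right (s := Q1))
          rw [Sym2.eq_iff] at hst
          rcases hst with ⟨rfl, rfl⟩ | ⟨rfl, rfl⟩
          · exact h7
          · exact h7.symm
        · exact (h3 s t hst).mono Set.subset_union_left
  exact ⟨Q, ⟨hfin, fun p hp => hQI hp, fun s t hst h => hsimple s t hst
    (h.mono (hQI.trans hIE))⟩, hQ⟩

end Pool.Agent.Work.MP_8c9686_lc
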