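import Pool.Agent.Work.MP_8c9686_lc.Height

/-!
The eager derivation for equations that are valid modulo a finite acyclic set of instances.
-/

namespace Pool.Agent.Work.MP_8c9686_lc

open Term Relation

variable {F : Type*} {ar : F → ℕ} {Q : Set (Term F ar × Term F ar)}

/-- the equations of a list of bindings -/
def bsys (L : List (ℕ × Term F ar)) : Sys F ar := (L.map fun p => s(var p.1, p.2) : Sys F ar)

theorem bsys_cons (p : ℕ × Term F ar) (L : List (ℕ × Term F ar)) :
    bsys (p :: L) = s(var p.1, p.2) ::ₘ bsys L := rfl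

theorem mem_bsys {L : List (ℕ × Term F ar)} {p : ℕ × Term F ar} (h : p ∈ L) :
    s(var p.1, p.2) ∈ bsys L := by
  simp only [bsys, Multiset.mem_coe, List.mem_map]
  exact ⟨p, h, rfl⟩

/-- the invariant of the derivation -/
structure Inv (Q : Set (Term F ar × Term F ar)) (V : Finset ℕ) (θ : ℕ → Term F ar)
    (L : List (ℕ × Term F ar)) (A : Sys F ar) : Prop where
  vars : sysVars (bsys L + A) ⊆ V
  once : ∀ p ∈ L, sysOcc p.1 (bsys L + A) = 1
  bind : ∀ p ∈ L, Cong Q (θ p.1) (p.2.subst θ)
  valid : ∀ s t, s(s, t) ∈ A → Cong Q (s.subst θ) (t.subst θ)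

/-- the relation between two stages of the derivation -/
structure Compat (Q : Set (Term F ar × Term F ar)) (V : Finset ℕ) (θ : ℕ → Term F ar)
    (V' : Finset ℕ) (θ' σ : ℕ → Term F ar) : Prop where
  sub : V ⊆ V'
  agree : ∀ x ∈ V, θ' x = θ x
  vars : ∀ x ∈ V, (σ x).vars ⊆ V'
  cong : ∀ x ∈ V, Cong Q ((σ x).subst θ') (θ x)

theorem Compat.id {V V' : Finset ℕ} {θ θ' : ℕ → Term F ar} (h : V ⊆ V')
    (h' : ∀ x ∈ V, θ' x = θ x) : Compat Q V θ V' θ' fun x => var x where
  sub := h
  agree := h'
  vars x hx := by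
    intro y hy
    simp only [mem_vars_var] at hy
    subst hy
    exact h hx
  cong x hx := by
    simp only [subst_var, h' x hx]
    exact Cong.refl _

theorem Compat.comp {V V1 V2 : Finset ℕ} {θ θ1 θ2 σ1 σ2 : ℕ → Term F ar}
    (h1 : Compat Q V θ V1 θ1 σ1) (h2 : Compat Q V1 θ1 V2 θ2 σ2) :
    Compat Q V θ V2 θ2 fun x => (σ1 x).subst σ2 where
  sub := h1.sub.trans h2.sub
  agree x hx := (h2.agree x (h1.sub hx)).trans (h1.agree x hx)
  vars x hx := by
    intro y hy
    rw [mem_vars_subst] at hy
    obtain ⟨z, hz, hy⟩ := hy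
    exact h2.vars z (h1.vars x hx hz) hy
  cong x hx := by
    rw [subst_subst]
    exact (Cong.subst_congr fun y hy => h2.cong y (h1.vars x hx hy)).trans (h1.cong x hx)

theorem Compat.term {V V' : Finset ℕ} {θ θ' σ : ℕ → Term F ar} (h : Compat Q V θ V' θ' σ)
    {t : Term F ar} (ht : t.vars ⊆ V) : Cong Q ((t.subst σ).subst θ') (t.subst θ) := by
  rw [subst_subst]
  exact Cong.subst_congr fun y hy => h.cong y (ht hy)

/-- the equations `Es` can be solved in the context of the bindings `L` and the system `A` -/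
def Good (Q : Set (Term F ar × Term F ar))
    (R : Finset ℕ × Sys F ar → Finset ℕ × Sys F ar → Prop) (V : Finset ℕ) (θ : ℕ → Term F ar)
    (L : List (ℕ × Term F ar)) (Es A : Sys F ar) : Prop :=
  ∃ V' θ' L' σ, ReflTransGen R (V, bsys L + (Es + A)) (V', bsys L' + sysSubst σ A) ∧
    Compat Q V θ V' θ' σ ∧ Inv Q V' θ' L' (sysSubst σ A)

/-- the capabilities of the two systems that are used -/
structure Rules (E : Set (Term F ar × Term F ar))
    (R : Finset ℕ × Sys F ar → Finset ℕ × Sys F ar → Prop) : Prop where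
  triv : ∀ (V : Finset ℕ) (t : Term F ar) (S : Sys F ar), ReflTransGen R (V, s(t, t) ::ₘ S) (V, S)
  dec : ∀ (V : Finset ℕ) (f : F) (a b : Fin (ar f) → Term F ar) (S : Sys F ar),
    ReflTransGen R (V, s(app f a, app f b) ::ₘ S)
      (V, (List.ofFn fun i => s(a i, b i) : Sys F ar) + S)
  ve : ∀ (V : Finset ℕ) (x : ℕ) (t : Term F ar) (S : Sys F ar), x ∉ t.vars → x ∈ sysVars S →
    ReflTransGen R (V, s(var x, t) ::ₘ S) (V, s(var x, t) ::ₘ sysSubst (single x t) S)
  rlp : ∀ (V : Finset ℕ) (v r : Term F ar) (f : F) (a b : Fin (ar f) → Term F ar)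
    (S : Sys F ar), FreshVariant E V (app f b) r → v.NonVar →
    ReflTransGen R (V, s(app f a, v) ::ₘ S) (V ∪ (app f b).vars ∪ r.vars,
      (List.ofFn fun i => s(a i, b i) : Sys F ar) + s(r, v) ::ₘ S)

theorem not_frozen {u v : Term F ar} (hu : u.NonVar) (hv : v.NonVar) : ¬ Frozen s(u, v) := by
  rintro ⟨x, t, h, _⟩
  obtain ⟨f, a, rfl⟩ := hu
  obtain ⟨g, b, rfl⟩ := hv
  rw [Sym2.eq_iff] at h
  rcases h with ⟨h, _⟩ | ⟨_, h⟩ <;> cases h

theorem rulesBT (E : Set (Term F ar × Term F ar)) : Rules E (StepBT E) where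
  triv V t S := ReflTransGen.single (StepBT.triv V t S)
  dec V f a b S := ReflTransGen.single (StepBT.dec V f a b S)
  ve V x t S h h' := ReflTransGen.single (StepBT.ve V x t S h h')
  rlp V v r f a b S h hv := by
    have h1 := StepBT.rr (E := E) V (app f a) v (app f b) r S h (not_frozen ⟨f, a, rfl⟩ hv)
    have h2 := StepBT.dec (E := E) (V ∪ (app f b).vars ∪ r.vars) f a b (s(r, v) ::ₘ S)
    exact (ReflTransGen.single h1).tail h2

theorem rulesT (E : Set (Term F ar × Term F ar)) : Rules E (StepT E) where
  triv V t S := ReflTransGen.single (StepT.triv V t S)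
  dec V f a b S := ReflTransGen.single (StepT.dec V f a b S)
  ve V x t S h h' := ReflTransGen.single (StepT.ve V x t S h h')
  rlp V v r f a b S h hv :=
    ReflTransGen.single (StepT.lpd V (app f a) v r r f a b S h (not_frozen ⟨f, a, rfl⟩ hv)
      ReplAt.here)

theorem sysVars_add (S T : Sys F ar) : sysVars (S + T) = sysVars S ∪ sysVars T := by
  ext x
  simp only [Finset.mem_union, mem_sysVars, Multiset.mem_add]
  constructor
  · rintro ⟨e, h | h, hx⟩
    · exact Or.inl ⟨e, h, hx⟩
    · exact Or.inr ⟨e, h, hx⟩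
  · rintro (⟨e, h, hx⟩ | ⟨e, h, hx⟩)
    · exact ⟨e, Or.inl h, hx⟩
    · exact ⟨e, Or.inr h, hx⟩

theorem sysVars_cons (s t : Term F ar) (S : Sys F ar) :
    sysVars (s(s, t) ::ₘ S) = s.vars ∪ t.vars ∪ sysVars S := by
  ext x
  simp only [Finset.mem_union, mem_sysVars, Multiset.mem_cons, exists_eq_or_imp, mem_eqVars]

theorem bsys_subst_single {x : ℕ} {t : Term F ar} {L : List (ℕ × Term F ar)}
    (h : ∀ p ∈ L, p.1 ≠ x) : sysSubst (single x t) (bsys L) =
      bsys (L.map fun p => (p.1, p.2.subst (single x t))) := by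
  simp only [sysSubst, bsys, Multiset.map_coe, List.map_map]
  congr 1
  apply List.map_congr_left
  intro p hp
  simp [single, h p hp]

/-- an equation with a variable side is solved by at most one Variable Elimination -/
theorem good_var {E : Set (Term F ar × Term F ar)}
    {R : Finset ℕ × Sys F ar → Finset ℕ × Sys F ar → Prop} (hR : Rules E R) {V : Finset ℕ}
    {θ : ℕ → Term F ar} {L : List (ℕ × Term F ar)} {A : Sys F ar} {x : ℕ} {t : Term F ar}
    (hx : x ∉ t.vars) (hinv : Inv Q V θ L (s(var x, t) ::ₘ A)) :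
    Good Q R V θ L {s(var x, t)} A := by
  set τ := single x t with hτ
  have hxV : x ∈ V := hinv.vars (by
    rw [sysVars_add, sysVars_cons]; simp)
  have htV : t.vars ⊆ V := fun y hy => hinv.vars (by
    rw [sysVars_add, sysVars_cons]; simp [hy])
  have hval : Cong Q (θ x) (t.subst θ) := hinv.valid (var x) t (by simp)
  -- variables bound in `L` do not occur in the equation
  have hL : ∀ p ∈ L, p.1 ≠ x ∧ p.1 ∉ t.vars := by
    intro p hp
    have h1 := hinv.once p hp
    have h2 : 1 ≤ sysOcc p.1 (bsys L) := by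
      rw [Nat.one_le_iff_ne_zero]
      intro h0
      rw [sysOcc_eq_zero, mem_sysVars] at h0
      exact h0 ⟨_, mem_bsys hp, by rw [mem_eqVars]; simp⟩
    rw [sysOcc_add, sysOcc_cons] at h1
    have h3 : eqOcc p.1 s(var x, t) = 0 := by omega
    rw [eqOcc_eq_zero, mem_eqVars] at h3
    simp only [mem_vars_var] at h3
    tauto
  set L1 := L.map fun p => (p.1, p.2.subst τ) with hL1
  have hb : sysSubst τ (bsys L) = bsys L1 := bsys_subst_single fun p hp => (hL p hp).1
  refine ⟨V, θ, (x, t) :: L1, τ, ?_, ?_, ?_⟩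
  · have e1 : bsys L + ({s(var x, t)} + A) = s(var x, t) ::ₘ (bsys L + A) := by
      rw [Multiset.singleton_add, Multiset.add_cons]
    have e2 : bsys ((x, t) :: L1) + sysSubst τ A = s(var x, t) ::ₘ sysSubst τ (bsys L + A) := by
      rw [bsys_cons, ← hb, sysSubst_add, Multiset.cons_add]
    rw [e1, e2]
    by_cases hocc : x ∈ sysVars (bsys L + A)
    · exact hR.ve V x t _ hx hocc
    · have : sysSubst τ (bsys L + A) = bsys L + A := by
        conv_rhs => rw [← Multiset.map_id (bsys L + A)]
        unfold sysSubst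
        apply Multiset.map_congr rfl
        intro e he
        have hxe : x ∉ eqVars e := fun h => hocc (mem_sysVars.2 ⟨e, he, h⟩)
        induction e with
        | _ u v =>
          rw [mem_eqVars] at hxe
          push Not at hxe
          simp [hτ, subst_single_eq hxe.1, subst_single_eq hxe.2]
      rw [this]
  · refine ⟨subset_rfl, fun _ _ => rfl, ?_, ?_⟩
    · intro y hy
      simp only [hτ, single]
      split_ifs with h
      · exact htV
      · intro z hz; simp only [mem_vars_var] at hz; subst hz; exact hy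
    · intro y hy
      simp only [hτ, single]
      split_ifs with h
      · subst h; exact hval.symm
      · exact Cong.refl _
  · have hcong : ∀ y, Cong Q ((τ y).subst θ) (θ y) := by
      intro y
      simp only [hτ, single]
      split_ifs with h
      · subst h; exact hval.symm
      · exact Cong.refl _
    have hcong' : ∀ u : Term F ar, Cong Q ((u.subst τ).subst θ) (u.subst θ) := by
      intro u
      rw [subst_subst]
      exact Cong.subst_congr fun y _ => hcong y
    have e2 : bsys ((x, t) :: L1) + sysSubst τ A = s(var x, t) ::ₘ sysSubst τ (bsys L + A) := by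
      rw [bsys_cons, ← hb, sysSubst_add, Multiset.cons_add]
    refine ⟨?_, ?_, ?_, ?_⟩
    · rw [e2]
      intro y hy
      rw [sysVars_cons, Finset.mem_union] at hy
      rcases hy with hy | hy
      · rw [Finset.mem_union, mem_vars_var] at hy
        rcases hy with hy | hy
        · subst hy; exact hxV
        · exact htV hy
      · by_contra hyV
        have h0 : sysOcc y (bsys L + A) = 0 := by
          rw [sysOcc_eq_zero]
          intro h
          apply hyV
          apply hinv.vars
          rw [sysVars_add, sysVars_cons]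
          rw [sysVars_add] at h
          simp only [Finset.mem_union] at h ⊢
          tauto
        have h1 : sysOcc y (sysSubst τ (bsys L + A)) = 0 := by
          rw [hτ, sysOcc_single _ _ _, h0]
          · rintro rfl; exact hyV hxV
          · exact fun h => hyV (htV h)
        exact sysOcc_eq_zero.1 h1 hy
    · rw [e2]
      intro p hp
      rcases List.mem_cons.1 hp with rfl | hp
      · rw [sysOcc_cons, hτ, sysOcc_single_self hx]
        have : t.occ x = 0 := occ_eq_zero.2 hx
        simp [eqOcc, this, occ]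
      · rw [hL1, List.mem_map] at hp
        obtain ⟨p', hp', rfl⟩ := hp
        have h1 := hinv.once p' hp'
        obtain ⟨h2, h3⟩ := hL p' hp'
        have h4 : eqOcc p'.1 s(var x, t) = 0 := by
          rw [eqOcc_eq_zero, mem_eqVars, mem_vars_var]
          tauto
        rw [sysOcc_cons, h4, hτ, sysOcc_single h2 h3, Nat.zero_add]
        rw [sysOcc_add, sysOcc_cons, h4, Nat.zero_add] at h1
        rw [sysOcc_add]
        exact h1
    · intro p hp
      rcases List.mem_cons.1 hp with rfl | hp
      · exact hval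
      · rw [hL1, List.mem_map] at hp
        obtain ⟨p', hp', rfl⟩ := hp
        exact (hinv.bind p' hp').trans (hcong' _).symm
    · intro u v huv
      simp only [sysSubst, Multiset.mem_map] at huv
      obtain ⟨e, he, huv⟩ := huv
      induction e with
      | _ u' v' =>
        rw [Sym2.map_mk] at huv
        have h1 := hinv.valid u' v' (by simp [he])
        have h2 := ((hcong' u').trans h1).trans (hcong' v').symm
        rw [Sym2.eq_iff] at huv
        rcases huv with ⟨rfl, rfl⟩ | ⟨rfl, rfl⟩
        · exact h2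
        · exact h2.symm

end Pool.Agent.Work.MP_8c9686_lc
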